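import Pool.Agent.Y463.KN.Basic
import Pool.Agent.Y463.UT.Fin
import Pool.Agent.W705.JR.Vas

/-!
# Twist regions: the number of terms of the bracket, up to a factor independent of the exponents
-/

set_option autoImplicit false

namespace Pool.Agent.X130.TR

open Finset LaurentPolynomial Pool.Agent.H891R2.Jones Pool.Agent.W639.RB Pool.Agent.Y463.SK
  Pool.Agent.Y463.UT Pool.Agent.H832R3.VJ
open Pool.Agent.W705.JR (Within within_bracket draw_size size sep_mono card_le_of_within fPoly_card card_sub)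

variable {m : ℕ}

/-- the bracket of the diagram with a word in the box -/
noncomputable def br (O : Outer m) (w : List (Bool × ℕ)) : ℤ[T;T⁻¹] := (draw O w).close.bracket

theorem ev_br (hm : 0 < m) (O : Outer m) (w : List (Bool × ℕ)) (hw : ∀ x ∈ w, x.2 + 1 < m)
    (N : ℕ) (hN : 3 ≤ N) :
    (N : ℂ) * ev N hN (br O w) = Zg (Ar N) N O (rho (Ar N) m N w (fun x y => ind (x = y))) := by
  have : Nonempty (draw O w).P := ⟨(draw O w).lower ⟨0, hm⟩⟩
  have h1 := ev_bracket N hN (draw O w).close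
  rw [Z_close, Zg_draw w O hw] at h1
  exact h1

section op
variable {K R : Type*} [Field K] [Ring R] [Algebra K R] {M : ℕ} {d A : K} {e : ℕ → R}

theorem quad (hA : A ≠ 0) (hd : d = -A^2 - A⁻¹^2) (h : IsTL M d e) (i : ℕ) (hi : i + 1 < M) :
    sg A e i * (sg A e i + (A⁻¹ ^ 3) • 1) = A • (sg A e i + (A⁻¹ ^ 3) • (1 : R)) ∧
    sg A e i * (A • 1 - sg A e i) = (-A⁻¹ ^ 3) • (A • (1 : R) - sg A e i) := by
  have h1 := sg_e hA hd h i hi
  have h2 : sg A e i * sg A e i = A • sg A e i + A⁻¹ • ((-A⁻¹ ^ 3) • e i) := by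
    conv_lhs => rw [show sg A e i * sg A e i = sg A e i * (A • (1 : R) + A⁻¹ • e i) from rfl]
    rw [mul_add, mul_smul_comm, mul_one, mul_smul_comm, h1]
  have h3 : A⁻¹ • e i = sg A e i - A • (1 : R) := by simp [sg]
  constructor
  · rw [mul_add, h2, mul_smul_comm, mul_one, smul_comm, h3]
    match_scalars <;> field_simp <;> ring
  · rw [mul_sub, h2, mul_smul_comm, mul_one, smul_comm (A⁻¹), h3]
    match_scalars <;> field_simp <;> ring

theorem quad_inv (hA : A ≠ 0) (hd : d = -A^2 - A⁻¹^2) (h : IsTL M d e) (i : ℕ) (hi : i + 1 < M) :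
    sg A⁻¹ e i * (sg A e i + (A⁻¹ ^ 3) • 1) = A⁻¹ • (sg A e i + (A⁻¹ ^ 3) • (1 : R)) ∧
    sg A⁻¹ e i * (A • 1 - sg A e i) = (-A ^ 3) • (A • (1 : R) - sg A e i) := by
  obtain ⟨h1, h2⟩ := quad (R := R) hA hd h i hi
  have h3 := sg_inv' hA hd h i hi
  constructor
  · have h4 := congrArg (fun x => A⁻¹ • (sg A⁻¹ e i * x)) h1
    simp only [← mul_assoc, h3, one_mul, mul_smul_comm, smul_smul, inv_mul_cancel₀ hA, one_smul] at h4
    exact h4.symm
  · have h4 := congrArg (fun x => (-A ^ 3) • (sg A⁻¹ e i * x)) h2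
    have h5 : -A ^ 3 * -A⁻¹ ^ 3 = 1 := by field_simp
    simp only [← mul_assoc, h3, one_mul, mul_smul_comm, smul_smul, h5, one_smul] at h4
    exact h4.symm

theorem pow_pos_formula (hA : A ≠ 0) (hd : d = -A^2 - A⁻¹^2) (h : IsTL M d e) (i : ℕ) (hi : i + 1 < M)
    (n : ℕ) : (A + A⁻¹ ^ 3) • (sg A e i) ^ n = 
      A ^ n • (sg A e i + (A⁻¹ ^ 3) • (1 : R)) + (-A⁻¹ ^ 3) ^ n • (A • (1 : R) - sg A e i) := by
  obtain ⟨h1, h2⟩ := quad (R := R) hA hd h i hi
  induction n with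
  | zero => 
    simp only [pow_zero, one_smul, add_smul]
    abel
  | succ n ih =>
    rw [pow_succ' (sg A e i) n, ← mul_smul_comm, ih, mul_add, mul_smul_comm, mul_smul_comm, h1, h2, 
      smul_smul, smul_smul, pow_succ A n, pow_succ (-A⁻¹ ^ 3) n]

theorem pow_neg_formula (hA : A ≠ 0) (hd : d = -A^2 - A⁻¹^2) (h : IsTL M d e) (i : ℕ) (hi : i + 1 < M)
    (n : ℕ) : (A + A⁻¹ ^ 3) • (sg A⁻¹ e i) ^ n = 
      A⁻¹ ^ n • (sg A e i + (A⁻¹ ^ 3) • (1 : R)) + (-A ^ 3) ^ n • (A • (1 : R) - sg A e i) := by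
  obtain ⟨h1, h2⟩ := quad_inv (R := R) hA hd h i hi
  induction n with
  | zero => 
    simp only [pow_zero, one_smul, add_smul]
    abel
  | succ n ih =>
    rw [pow_succ' (sg A⁻¹ e i) n, ← mul_smul_comm, ih, mul_add, mul_smul_comm, mul_smul_comm, h1, h2, 
      smul_smul, smul_smul, pow_succ A⁻¹ n, pow_succ (-A ^ 3) n]

end op

/-- the sign `(-1)^z` -/
def sn (z : ℤ) : ℤ := if Even z then 1 else -1

theorem sn_cast (z : ℤ) (A : ℂ) (hA : A ≠ 0) : (-A⁻¹ ^ 3) ^ z = (sn z : ℂ) * A ^ (-3 * z) := by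
  have h0 : A ^ (-3 : ℤ) = A⁻¹ ^ 3 := by
    rw [zpow_neg, inv_pow]
    norm_cast
  have h1 : (-A⁻¹ ^ 3 : ℂ) = (-1) * (A ^ (-3 : ℤ)) := by
    rw [h0]
    ring
  rw [h1, mul_zpow, ← zpow_mul]
  congr 1
  unfold sn
  split_ifs with h
  · rw [h.neg_one_zpow]; simp
  · rw [(Int.not_even_iff_odd.1 h).neg_one_zpow]; simp

theorem rho_pow (A : ℂ) (hA : A ≠ 0) (m N : ℕ) (hN : (N : ℂ) = -A^2 - A⁻¹^2) (i : ℕ) (hi : i + 1 < m) 
    (z : ℤ) : (A + A⁻¹ ^ 3) • rho A m N (powL [(true, i)] z) = 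
      A ^ z • (rho A m N [(true, i)] + (A⁻¹ ^ 3) • 1) + 
        ((sn z : ℂ) * A ^ (-3 * z)) • (A • 1 - rho A m N [(true, i)]) := by
  have hs : rho A m N [(true, i)] = sg A (ee m N ((Fin m → Fin N) → ℂ)) i := by
    simp [rho, lt]
  have hs' : rho A m N [(false, i)] = sg A⁻¹ (ee m N ((Fin m → Fin N) → ℂ)) i := by
    simp [rho, lt]
  have hrep : ∀ (x : Bool × ℕ) (n : ℕ), rho A m N (List.replicate n [x]).flatten = (rho A m N [x]) ^ n := by
    intro x n
    induction n with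
    | zero => rfl
    | succ n ih => rw [List.replicate_succ, List.flatten_cons, rho_append, ih, pow_succ']
  rw [← sn_cast z A hA]
  rcases z with n | n
  · rw [powL, hrep, hs]
    have := pow_pos_formula (R := Module.End ℂ ((Fin m → Fin N) → ((Fin m → Fin N) → ℂ))) hA hN 
      (isTL_ee m N) i hi n
    simpa using this
  · rw [powL]
    have h1 : invL [((true, i) : Bool × ℕ)] = [(false, i)] := rfl
    rw [h1, hrep, hs, hs']
    have h2 := pow_neg_formula (R := Module.End ℂ ((Fin m → Fin N) → ((Fin m → Fin N) → ℂ))) hA hN 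
      (isTL_ee m N) i hi (n + 1)
    rw [h2, Int.negSucc_eq, zpow_neg, zpow_neg, ← Nat.cast_succ, zpow_natCast, zpow_natCast, ← inv_pow, 
      ← inv_pow]
    congr 3
    rw [inv_neg, inv_pow, inv_inv]

theorem Fz {N : ℕ} {A : ℂ} (O : Outer m) (S S' : Module.End ℂ ((Fin m → Fin N) → ((Fin m → Fin N) → ℂ))) 
    (a : ℂ) (g : (Fin m → Fin N) → ((Fin m → Fin N) → ℂ)) : 
    Zg A N O ((S + S') g) = Zg A N O (S g) + Zg A N O (S' g) ∧ 
    Zg A N O ((a • S) g) = a * Zg A N O (S g) ∧ 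
    Zg A N O ((S - S') g) = Zg A N O (S g) - Zg A N O (S' g) := by
  refine ⟨?_, ?_, ?_⟩
  · rw [LinearMap.add_apply, Zg_add]
  · rw [LinearMap.smul_apply, Zg_smul]
  · rw [LinearMap.sub_apply, sub_eq_add_neg, Zg_add, ← neg_one_smul ℂ (S' g), Zg_smul]
    ring

/-- the skein relation for a power of a generator -/
theorem br_pow (hm : 0 < m) (O : Outer m) (a b : List (Bool × ℕ)) (ha : ∀ x ∈ a, x.2 + 1 < m)
    (hb : ∀ x ∈ b, x.2 + 1 < m) (i : ℕ) (hi : i + 1 < m) (z : ℤ) : 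
    (T 1 + T (-3)) * br O (a ++ powL [(true, i)] z ++ b) = 
      T z * (br O (a ++ [(true, i)] ++ b) + T (-3) * br O (a ++ b)) + 
        C (sn z) * T (-3 * z) * (T 1 * br O (a ++ b) - br O (a ++ [(true, i)] ++ b)) := by
  rw [← sub_eq_zero]
  apply eq_zero_of_ev
  intro N hN
  have hA := Ar_ne N hN
  have hNC : (N : ℂ) ≠ 0 := by
    rw [Nat.cast_ne_zero]; omega
  refine (mul_eq_zero.1 ?_).resolve_left hNC
  have hz : ∀ x ∈ powL [((true, i) : Bool × ℕ)] z, x.2 + 1 < m := by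
    apply powL_lt
    simpa using hi
  have h1 : ∀ x ∈ a ++ powL [(true, i)] z ++ b, x.2 + 1 < m := by
    intro x hx
    rw [List.mem_append, List.mem_append] at hx
    rcases hx with (h | h) | h
    · exact ha x h
    · exact hz x h
    · exact hb x h
  have h2 : ∀ x ∈ a ++ [(true, i)] ++ b, x.2 + 1 < m := by
    intro x hx
    rw [List.mem_append, List.mem_append] at hx
    rcases hx with (h | h) | h
    · exact ha x h
    · rw [List.mem_singleton] at h; rw [h]; exact hi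
    · exact hb x h
  have h3 : ∀ x ∈ a ++ b, x.2 + 1 < m := by
    intro x hx
    rw [List.mem_append] at hx
    rcases hx with h | h
    · exact ha x h
    · exact hb x h
  have e1 := ev_br hm O _ h1 N hN
  have e2 := ev_br hm O _ h2 N hN
  have e3 := ev_br hm O _ h3 N hN
  have hT1 : ev N hN (T 1) = Ar N := by rw [ev_T, zpow_one]
  have hT3 : ev N hN (T (-3)) = (Ar N)⁻¹ ^ 3 := by
    rw [ev_T, zpow_neg, inv_pow]
    norm_cast
  have hC : ev N hN (C (sn z)) = (sn z : ℂ) := by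
    unfold ev
    rw [LaurentPolynomial.eval₂_C]
    simp
  rw [map_sub, map_mul, map_add, map_add, map_mul, map_mul, map_mul, map_add, map_mul, map_sub, 
    map_mul, hT1, hT3, hC, ev_T, ev_T]
  set B1 := ev N hN (br O (a ++ powL [(true, i)] z ++ b)) with hB1
  set B2 := ev N hN (br O (a ++ [(true, i)] ++ b)) with hB2
  set B3 := ev N hN (br O (a ++ b)) with hB3
  have key : (Ar N + (Ar N)⁻¹ ^ 3) * ((N : ℂ) * B1) = 
      Ar N ^ z * (((N : ℂ) * B2) + (Ar N)⁻¹ ^ 3 * ((N : ℂ) * B3)) + 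
        ((sn z : ℂ) * Ar N ^ (-3 * z)) * (Ar N * ((N : ℂ) * B3) - (N : ℂ) * B2) := by
    rw [e1, e2, e3]
    set R := rho (Ar N) m N with hR
    have r1 : R (a ++ powL [(true, i)] z ++ b) = R a * R (powL [(true, i)] z) * R b := by
      rw [hR, rho_append, rho_append]
    have r2 : R (a ++ [(true, i)] ++ b) = R a * R [(true, i)] * R b := by
      rw [hR, rho_append, rho_append]
    have r3 : R (a ++ b) = R a * R b := by
      rw [hR, rho_append]
    rw [← (Fz (A := Ar N) O _ 0 _ _).2.1, ← (Fz (A := Ar N) O _ 0 _ _).2.1, ← (Fz (A := Ar N) O _ _ 0 _).1, 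
      ← (Fz (A := Ar N) O _ 0 _ _).2.1, ← (Fz (A := Ar N) O _ 0 _ _).2.1, ← (Fz (A := Ar N) O _ _ 0 _).2.2, 
      ← (Fz (A := Ar N) O _ 0 _ _).2.1, ← (Fz (A := Ar N) O _ _ 0 _).1]
    congr 2
    rw [r1, r2, r3]
    have h4 := rho_pow (Ar N) hA m N (Ar_d N hN) i hi z
    rw [← hR] at h4
    calc (Ar N + (Ar N)⁻¹ ^ 3) • (R a * R (powL [(true, i)] z) * R b) 
        = R a * ((Ar N + (Ar N)⁻¹ ^ 3) • R (powL [(true, i)] z)) * R b := by
          rw [mul_smul_comm, smul_mul_assoc]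
      _ = _ := by
          rw [h4]
          simp only [mul_add, add_mul, mul_sub, sub_mul, mul_smul_comm, smul_mul_assoc, mul_one]
  linear_combination key

end Pool.Agent.X130.TR
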