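import Pool.Agent.X130.TR.A
import Pool.Agent.H832R3.VJ.Fin

/-!
# Twist regions: Vassiliev invariants of an order independent of the exponents
-/

set_option autoImplicit false

namespace Pool.Agent.X130.TR

open Finset LaurentPolynomial Pool.Agent.H891R2.Jones Pool.Agent.W639.RB Pool.Agent.Y463.SK
  Pool.Agent.Y463.UT Pool.Agent.H832R3.VJ
open Pool.Agent.W705.JR (Within within_bracket draw_size size sep_mono card_le_of_within fPoly_card card_sub)

variable {m : ℕ}

/-- the number of terms -/
def nt (f : ℤ[T;T⁻¹]) : ℕ := f.coeff.support.card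

theorem nt_sub (f g : ℤ[T;T⁻¹]) : nt (f - g) ≤ nt f + nt g := card_sub f g

theorem nt_add (f g : ℤ[T;T⁻¹]) : nt (f + g) ≤ nt f + nt g := by
  classical
  have h : (f + g).coeff.support ⊆ f.coeff.support ∪ g.coeff.support := by
    intro j hj
    rw [Finsupp.mem_support_iff] at hj
    rw [Finset.mem_union, Finsupp.mem_support_iff, Finsupp.mem_support_iff]
    by_contra hcon
    push Not at hcon
    apply hj
    rw [AddMonoidAlgebra.coeff_add, Finsupp.add_apply, hcon.1, hcon.2, add_zero]
  exact (Finset.card_le_card h).trans (Finset.card_union_le _ _)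

theorem nt_T (f : ℤ[T;T⁻¹]) (k : ℤ) : nt (T k * f) ≤ nt f := by
  have h : (T k * f).coeff.support ⊆ f.coeff.support.image (fun j => j + k) := by
    intro j hj
    rw [Finsupp.mem_support_iff, mul_comm, Pool.Agent.W705.JR.coeff_mul_T] at hj
    rw [Finset.mem_image]
    exact ⟨j - k, by rwa [Finsupp.mem_support_iff], by ring⟩
  exact (Finset.card_le_card h).trans Finset.card_image_le

theorem nt_neg (f : ℤ[T;T⁻¹]) : nt (-f) = nt f := by
  unfold nt
  rw [AddMonoidAlgebra.coeff_neg, Finsupp.support_neg]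

theorem nt_sn (f : ℤ[T;T⁻¹]) (z : ℤ) : nt (C (sn z) * f) = nt f := by
  unfold sn
  split_ifs
  · rw [map_one, one_mul]
  · rw [map_neg, map_one, neg_one_mul, nt_neg]

/-- the multiplier -/
noncomputable def G : ℤ[T;T⁻¹] := T 1 + T (-3)

theorem nt_G (f : ℤ[T;T⁻¹]) (k : ℕ) : nt (G ^ k * f) ≤ 2 ^ k * nt f := by
  induction k with
  | zero => simp
  | succ k ih =>
    have h1 : G ^ (k + 1) * f = T 1 * (G ^ k * f) + T (-3) * (G ^ k * f) := by
      rw [pow_succ]
      unfold G
      ring
    rw [h1]
    refine (nt_add _ _).trans ?_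
    have h2 := nt_T (G ^ k * f) 1
    have h3 := nt_T (G ^ k * f) (-3)
    rw [pow_succ]
    nlinarith

theorem G_ne : G ≠ 0 := by
  intro h
  have h1 : G.coeff 1 = (0 : ℤ[T;T⁻¹]).coeff 1 := by rw [h]
  have h2 : ∀ a b : ℤ, (T a : ℤ[T;T⁻¹]).coeff b = if a = b then 1 else 0 := by
    intro a b
    show (AddMonoidAlgebra.single a (1:ℤ)).coeff b = _
    rw [AddMonoidAlgebra.coeff_single, Finsupp.single_apply]
  unfold G at h1
  rw [AddMonoidAlgebra.coeff_add, Finsupp.add_apply, h2, h2] at h1
  simp at h1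

/-- a bound for the number of terms of a bracket -/
noncomputable def bnd (O : Outer m) (n : ℕ) : ℕ := 
  2 * (O.crossings.length + n + 2 * (Nat.card O.P + m * n)) + 1

theorem nt_br (O : Outer m) (w : List (Bool × ℕ)) (hw : ∀ x ∈ w, x.2 + 1 < m) : 
    nt (br O w) ≤ bnd O w.length := by
  obtain ⟨h1, h2⟩ := draw_size w O hw
  have h3 := card_le_of_within (within_bracket (draw O w).close)
  unfold nt br bnd
  have h4 : (draw O w).close.crossings.length = (draw O w).crossings.length := rfl
  rw [h4, h1, h2] at h3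
  exact h3

/-- the word of a list of places and exponents -/
def WL (L : List (ℕ × ℤ)) : List (Bool × ℕ) := (L.map (fun p => powL [(true, p.1)] p.2)).flatten

theorem WL_lt (L : List (ℕ × ℤ)) (hL : ∀ p ∈ L, p.1 + 1 < m) : ∀ x ∈ WL L, x.2 + 1 < m := by
  intro x hx
  unfold WL at hx
  rw [List.mem_flatten] at hx
  obtain ⟨l, hl, hx⟩ := hx
  rw [List.mem_map] at hl
  obtain ⟨p, hp, rfl⟩ := hl
  have := hL p hp
  exact powL_lt (m := m) (w := [((true, p.1) : Bool × ℕ)]) (by simpa using this) p.2 x hx

theorem nt_tw (hm : 0 < m) (O : Outer m) : ∀ (L : List (ℕ × ℤ)) (a : List (Bool × ℕ)), 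
    (∀ x ∈ a, x.2 + 1 < m) → (∀ p ∈ L, p.1 + 1 < m) → 
    nt (G ^ L.length * br O (a ++ WL L)) ≤ 4 ^ L.length * bnd O (a.length + L.length) := by
  intro L
  induction L with
  | nil =>
    intro a ha _
    have h1 : a ++ WL [] = a := by simp [WL]
    rw [h1]
    simpa using nt_br O a ha
  | cons p L ih =>
    intro a ha hL
    have hL' : ∀ q ∈ L, q.1 + 1 < m := fun q hq => hL q (List.mem_cons_of_mem _ hq)
    have hp := hL p List.mem_cons_self
    have h1 : a ++ WL (p :: L) = a ++ powL [(true, p.1)] p.2 ++ WL L := by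
      simp [WL, List.append_assoc]
    have h2 := br_pow hm O a (WL L) ha (WL_lt L hL') p.1 hp p.2
    have ha' : ∀ x ∈ a ++ [((true, p.1) : Bool × ℕ)], x.2 + 1 < m := by
      intro x hx
      rw [List.mem_append, List.mem_singleton] at hx
      rcases hx with hx | rfl
      · exact ha x hx
      · exact hp
    have h3 := ih a ha hL'
    have h4 := ih (a ++ [(true, p.1)]) ha' hL'
    have h5 : G ^ (L.length + 1) * br O (a ++ WL (p :: L)) = 
        T p.2 * (G ^ L.length * br O (a ++ [(true, p.1)] ++ WL L) + 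
          T (-3) * (G ^ L.length * br O (a ++ WL L))) + 
        C (sn p.2) * (T (-3 * p.2) * (T 1 * (G ^ L.length * br O (a ++ WL L)) - 
          G ^ L.length * br O (a ++ [(true, p.1)] ++ WL L))) := by
      rw [h1, pow_succ, mul_assoc]
      have : G * br O (a ++ powL [(true, p.1)] p.2 ++ WL L) = 
        (T 1 + T (-3)) * br O (a ++ powL [(true, p.1)] p.2 ++ WL L) := rfl
      rw [this, h2]
      ring
    rw [List.length_cons, h5]
    set X := G ^ L.length * br O (a ++ [(true, p.1)] ++ WL L) with hX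
    set Y := G ^ L.length * br O (a ++ WL L) with hY
    have e1 := nt_add (T p.2 * (X + T (-3) * Y)) (C (sn p.2) * (T (-3 * p.2) * (T 1 * Y - X)))
    have e2 := nt_T (X + T (-3) * Y) p.2
    have e3 := nt_add X (T (-3) * Y)
    have e4 := nt_T Y (-3)
    have e5 := nt_sn (T (-3 * p.2) * (T 1 * Y - X)) p.2
    have e6 := nt_T (T 1 * Y - X) (-3 * p.2)
    have e7 := nt_sub (T 1 * Y) X
    have e8 := nt_T Y 1
    have h6 : (a ++ [((true, p.1) : Bool × ℕ)]).length + L.length = a.length + (L.length + 1) := by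
      rw [List.length_append, List.length_singleton]; ring
    rw [h6] at h4
    have h7 : bnd O (a.length + L.length) ≤ bnd O (a.length + (L.length + 1)) := by
      unfold bnd
      have : m * (a.length + L.length) ≤ m * (a.length + (L.length + 1)) := 
        Nat.mul_le_mul_left _ (by omega)
      omega
    have h8 : nt Y ≤ 4 ^ L.length * bnd O (a.length + (L.length + 1)) := 
      h3.trans (Nat.mul_le_mul_left _ h7)
    have h9 : 4 ^ (L.length + 1) * bnd O (a.length + (L.length + 1)) = 
        4 * (4 ^ L.length * bnd O (a.length + (L.length + 1))) := by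
      rw [pow_succ]; ring
    rw [h9]
    omega

/-- the number of terms of the normalised bracket of a diagram with `k` twist regions, after multiplication
with a power of `A + A⁻³`, has a bound which does not depend on the exponents -/
theorem nt_fPoly {P : Type} (D : Diagram P) (k : ℕ) : nt (G ^ k * D.fPoly) ≤ nt (G ^ k * D.bracket) := by
  unfold Diagram.fPoly
  have h1 : ∀ (s : ℤ[T;T⁻¹]) (t : ℤ), G ^ k * (s * T t * D.bracket) = T t * (s * (G ^ k * D.bracket)) := by
    intro s t; ring
  rw [h1]
  refine (nt_T _ _).trans ?_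
  split_ifs
  · rw [one_mul]
  · rw [neg_one_mul, nt_neg]

theorem toN_tw {k : ℕ} (i : Fin k → Fin (m - 1)) (x : Fin k → ℤ) : 
    toN (tw i x) = WL (List.ofFn (fun j => (((i j : ℕ)), x j))) := by
  unfold tw WL toN
  rw [List.map_flatten, List.map_ofFn, List.map_ofFn]
  congr 2
  funext j
  simp only [Function.comp_apply]
  exact toN_pow [((true, i j) : Letter m)] (x j)

/-- the diagram with the word `w` in the box, with its finite set of marked points -/
def diaW (O : Outer m) (w : List (Letter m)) : Dia := 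
  ⟨(draw O (w.map (fun x => (x.1, (x.2 : ℕ))))).P, inferInstance, dia O w⟩

/-- the order: it depends on the number of twist regions and on the outside, not on the exponents -/
noncomputable def ordB (O : Outer m) (k : ℕ) : ℕ := 
  4 ^ k * (2 * O.crossings.length + 4 * Nat.card O.P + (4 * m + 2) * k + 1)

theorem nt_dia (hm : 0 < m) (O : Outer m) {k : ℕ} (i : Fin k → Fin (m - 1)) (x : Fin k → ℤ) : 
    nt (G ^ k * (diaW O (tw i x)).D.fPoly) ≤ ordB O k := by
  refine (nt_fPoly _ k).trans ?_
  have h1 := nt_tw hm O (List.ofFn (fun j => (((i j : ℕ)), x j))) [] (by simp) (by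
    intro p hp
    rw [List.mem_ofFn'] at hp
    obtain ⟨j, rfl⟩ := hp
    have := (i j).2
    show (i j : ℕ) + 1 < m
    omega)
  rw [List.length_ofFn, List.nil_append, ← toN_tw, List.length_nil, zero_add] at h1
  have h2 : (diaW O (tw i x)).D.bracket = br O (toN (tw i x)) := rfl
  rw [h2]
  refine h1.trans (le_of_eq ?_)
  unfold ordB bnd
  congr 1
  ring

/-- diagrams with different normalised brackets are separated by Vassiliev invariants of an order
independent of the exponents -/
theorem sep_tw (hm : 0 < m) (O : Outer m) {k : ℕ} (i : Fin k → Fin (m - 1)) (x : Fin k → ℤ) (Y : Dia) 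
    (d : ℕ) (hd : ordB O k + nt (G ^ k * Y.D.fPoly) ≤ d + 1) 
    (h : (diaW O (tw i x)).D.fPoly ≠ Y.D.fPoly) : Separated d (diaW O (tw i x)) Y := by
  have h1 := separated_of_ne (d + 1) (diaW O (tw i x)) Y (G ^ k) (pow_ne_zero _ G_ne) (by
    rw [mul_sub]
    refine (card_sub _ _).trans ?_
    have := nt_dia hm O i x
    unfold nt at this hd
    omega) h
  simpa using h1

theorem nt_unknot (k : ℕ) : nt (G ^ k * unknot.D.fPoly) ≤ 2 ^ k := by
  refine (nt_G _ k).trans ?_
  rw [fPoly_unknot]
  have : nt (1 : ℤ[T;T⁻¹]) ≤ 1 := by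
    unfold nt
    show (AddMonoidAlgebra.single (0:ℤ) (1:ℤ)).coeff.support.card ≤ 1
    rw [AddMonoidAlgebra.coeff_single]
    exact (Finset.card_le_card Finsupp.support_single_subset).trans (by simp)
  nlinarith [Nat.one_le_two_pow (n := k)]

theorem nt_gen (Y : Dia) (k : ℕ) : nt (G ^ k * Y.D.fPoly) ≤ 
    2 ^ k * (2 * (Y.D.crossings.length + 2 * Nat.card Y.P) + 1) := by
  refine (nt_G _ k).trans (Nat.mul_le_mul_left _ ?_)
  exact @fPoly_card Y.P Y.fin Y.D

end Pool.Agent.X130.TR
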