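import Pool.Agent.X130.TR.B

/-!
# Independent families of random exponents; random exponents and Vassiliev invariants
-/

set_option autoImplicit false

namespace Pool.Agent.X130.TR

open Finset LaurentPolynomial Pool.Agent.H891R2.Jones Pool.Agent.W639.RB Pool.Agent.Y463.SK
  Pool.Agent.Y463.UT Pool.Agent.H832R3.VJ
open Pool.Agent.W705.JR (size sep_mono)

variable {m : ℕ}

section general

open Classical in
theorem swap_bound {ι : Type*} [Fintype ι] [DecidableEq ι] {α : ι → Type*} (S : ∀ a, Finset (α a)) 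
    (w : ∀ a, α a → ℝ) (hw : ∀ a x, 0 ≤ w a x) (h1 : ∀ a, ∑ x ∈ S a, w a x = 1) 
    (E : (∀ a, α a) → Prop) (a : ι) (δ : ℝ) 
    (hE : ∀ X ∈ Fintype.piFinset S, ∑ x ∈ (S a).filter (fun x => E (Function.update X a x)), w a x ≤ δ) :
    ∑ X ∈ (Fintype.piFinset S).filter E, ∏ b, w b (X b) ≤ δ := by
  have hpr : ∀ (X : ∀ a, α a) (x : α a), 
      w a (X a) * ∏ b, w b (Function.update X a x b) = w a x * ∏ b, w b (X b) := by
    intro X x
    rw [← Finset.mul_prod_erase univ (fun b => w b (Function.update X a x b)) (Finset.mem_univ a), 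
      ← Finset.mul_prod_erase univ (fun b => w b (X b)) (Finset.mem_univ a)]
    have h2 : ∏ b ∈ univ.erase a, w b (Function.update X a x b) = ∏ b ∈ univ.erase a, w b (X b) := by
      refine Finset.prod_congr rfl fun b hb => ?_
      rw [Function.update_of_ne (Finset.ne_of_mem_erase hb)]
    simp only [Function.update_self, h2]
    ring
  have hupd : ∀ X ∈ Fintype.piFinset S, ∀ x ∈ S a, Function.update X a x ∈ Fintype.piFinset S := by
    intro X hX x hx
    rw [Fintype.mem_piFinset] at hX ⊢
    intro b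
    by_cases hb : b = a
    · subst hb; rw [Function.update_self]; exact hx
    · rw [Function.update_of_ne hb]; exact hX b
  calc ∑ X ∈ (Fintype.piFinset S).filter E, ∏ b, w b (X b) 
      = ∑ X ∈ Fintype.piFinset S, ∑ x ∈ S a, (if E X then w a x * ∏ b, w b (X b) else 0) := by
        rw [Finset.sum_filter]
        refine Finset.sum_congr rfl fun X _ => ?_
        split_ifs
        · rw [← Finset.sum_mul, h1, one_mul]
        · simp
    _ = ∑ p ∈ (Fintype.piFinset S) ×ˢ (S a), 
          (if E p.1 then w a p.2 * ∏ b, w b (p.1 b) else 0) := by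
        rw [Finset.sum_product]
    _ = ∑ p ∈ (Fintype.piFinset S) ×ˢ (S a), 
          (if E (Function.update p.1 a p.2) then w a p.2 * ∏ b, w b (p.1 b) else 0) := by
        refine Finset.sum_bij' (fun p _ => (Function.update p.1 a p.2, p.1 a)) 
          (fun p _ => (Function.update p.1 a p.2, p.1 a)) ?_ ?_ ?_ ?_ ?_
        · rintro ⟨X, x⟩ hp
          rw [Finset.mem_product] at hp ⊢
          exact ⟨hupd X hp.1 x hp.2, Fintype.mem_piFinset.1 hp.1 a⟩
        · rintro ⟨X, x⟩ hp
          rw [Finset.mem_product] at hp ⊢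
          exact ⟨hupd X hp.1 x hp.2, Fintype.mem_piFinset.1 hp.1 a⟩
        · rintro ⟨X, x⟩ _
          simp
        · rintro ⟨X, x⟩ _
          simp
        · rintro ⟨X, x⟩ _
          simp only [Function.update_idem, Function.update_eq_self]
          rw [hpr]
    _ = ∑ X ∈ Fintype.piFinset S, 
          (∑ x ∈ (S a).filter (fun x => E (Function.update X a x)), w a x) * ∏ b, w b (X b) := by
        rw [Finset.sum_product]
        refine Finset.sum_congr rfl fun X _ => ?_
        rw [Finset.sum_filter, Finset.sum_mul]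
        refine Finset.sum_congr rfl fun x _ => ?_
        split_ifs
        · rfl
        · rw [zero_mul]
    _ ≤ ∑ X ∈ Fintype.piFinset S, δ * ∏ b, w b (X b) := by
        refine Finset.sum_le_sum fun X hX => ?_
        exact mul_le_mul_of_nonneg_right (hE X hX) (Finset.prod_nonneg fun b _ => hw b _)
    _ = δ := by
        rw [← Finset.mul_sum, ← Finset.prod_univ_sum (fun a => S a) (fun a x => w a x)]
        rw [Finset.prod_eq_one fun a _ => h1 a, mul_one]

end general

open Classical in
/-- the probability of `E` for `M` independent `k`-tuples of independent integers with the distributions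
`μ a j` -/
noncomputable def probT {M k : ℕ} (μ : Fin M → Fin k → Law) (E : (Fin M → Fin k → ℤ) → Prop) : ℝ := 
  ∑ X ∈ (Fintype.piFinset (fun a => Fintype.piFinset (fun j => (μ a j).A))).filter E, 
    ∏ a, ∏ j, (μ a j).p (X a j)

theorem probT_union {M k : ℕ} (μ : Fin M → Fin k → Law) 
    (R : ∀ a b : Fin M, (Fin k → ℤ) → (Fin k → ℤ) → Prop) (δ : ℝ) (hδ : 0 ≤ δ)
    (hR : ∀ a b, a ≠ b → ∀ y, prob (μ a) (fun x => R a b x y) ≤ δ) : 
    probT μ (fun X => ∃ a b, a ≠ b ∧ R a b (X a) (X b)) ≤ (M : ℝ) ^ 2 * δ := by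
  classical
  have hnn : ∀ (X : Fin M → Fin k → ℤ), 0 ≤ ∏ a, ∏ j, (μ a j).p (X a j) := fun X => 
    Finset.prod_nonneg fun a _ => Finset.prod_nonneg fun j _ => (μ a j).nn _
  have h1 : probT μ (fun X => ∃ a b, a ≠ b ∧ R a b (X a) (X b)) ≤ 
      ∑ p : Fin M × Fin M, probT μ (fun X => p.1 ≠ p.2 ∧ R p.1 p.2 (X p.1) (X p.2)) := by
    unfold probT
    simp_rw [Finset.sum_filter]
    rw [Finset.sum_comm]
    refine Finset.sum_le_sum fun X _ => ?_
    by_cases h : ∃ a b, a ≠ b ∧ R a b (X a) (X b)
    · rw [if_pos h]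
      obtain ⟨a, b, hab, hr⟩ := h
      have h2 := Finset.single_le_sum (f := fun p : Fin M × Fin M => 
        if p.1 ≠ p.2 ∧ R p.1 p.2 (X p.1) (X p.2) then ∏ a, ∏ j, (μ a j).p (X a j) else 0) 
        (fun p _ => by split_ifs; exacts [hnn X, le_rfl]) (Finset.mem_univ (a, b))
      simp only at h2
      rw [if_pos ⟨hab, hr⟩] at h2
      convert h2
    · rw [if_neg h]
      exact Finset.sum_nonneg fun p _ => by split_ifs; exacts [hnn X, le_rfl]
  refine h1.trans ?_
  have h2 : ∀ p : Fin M × Fin M, probT μ (fun X => p.1 ≠ p.2 ∧ R p.1 p.2 (X p.1) (X p.2)) ≤ δ := by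
    rintro ⟨a, b⟩
    by_cases hab : a = b
    · refine le_trans (le_of_eq ?_) hδ
      unfold probT
      apply Finset.sum_eq_zero
      intro X hX
      simp only [Finset.mem_filter] at hX
      exact absurd hab hX.2.1
    · have h3 := swap_bound (fun a => Fintype.piFinset (fun j => (μ a j).A)) 
        (fun a x => ∏ j, (μ a j).p (x j)) 
        (fun a x => Finset.prod_nonneg fun j _ => (μ a j).nn _) (by
          intro a
          rw [← Finset.prod_univ_sum (fun j => (μ a j).A) (fun j x => (μ a j).p x)]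
          exact Finset.prod_eq_one fun j _ => (μ a j).sum)
        (fun X => a ≠ b ∧ R a b (X a) (X b)) a δ (by
          intro X _
          refine le_trans (le_of_eq ?_) (hR a b hab (X b))
          unfold prob
          refine Finset.sum_congr ?_ fun x _ => rfl
          ext x
          have hu : Function.update X a x b = X b := Function.update_of_ne (Ne.symm hab) _ _
          simp only [Finset.mem_filter, Function.update_self]
          rw [hu]
          constructor
          · rintro ⟨h1, _, h2⟩; exact ⟨h1, h2⟩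
          · rintro ⟨h1, h2⟩; exact ⟨h1, hab, h2⟩)
      unfold probT
      convert h3
  calc ∑ p : Fin M × Fin M, probT μ (fun X => p.1 ≠ p.2 ∧ R p.1 p.2 (X p.1) (X p.2)) 
      ≤ ∑ _p : Fin M × Fin M, δ := Finset.sum_le_sum fun p _ => h2 p
    _ = (M : ℝ) ^ 2 * δ := by
        rw [Finset.sum_const, Finset.card_univ, Fintype.card_prod, Fintype.card_fin, nsmul_eq_mul]
        push_cast
        ring

/-- the bound for the probability of a given normalised bracket -/
theorem LO (hm : 3 ≤ m) : ∃ C : ℝ, 0 ≤ C ∧ ∀ (O : Outer m) (g : ℤ[T;T⁻¹]) (k : ℕ) (i : Fin k → Fin (m - 1)) 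
      (μ : Fin k → Law) (ε : ℝ), 0 < ε → ∀ u : ℕ, u * ((m.factorial + 1) * (m.factorial + 2)) ≤ turns i μ ε → 
        prob μ (fun x => (dia O (tw i x)).fPoly = g) ≤ C * (8 * ε) ^ ((u : ℝ) / 2) := by
  refine ⟨max (CU m) 0, le_max_right _ _, fun O g k i μ ε hε u hu => ?_⟩
  have h1 := Pool.Agent.Y463.UT.final hm 2 le_rfl O g k i μ ε hε u hu
  refine (prob_mono μ _ _ ?_).trans (h1.trans ?_)
  · intro x _ hx
    have hx' : (dia O (tw i x)).fPoly = g := hx
    show ((2 : ℕ) : ℤ[T;T⁻¹]) ∣ (dia O (tw i x)).fPoly - g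
    rw [hx', sub_self]
    exact dvd_zero _
  · exact mul_le_mul_of_nonneg_right (le_max_left _ _) (by positivity)

/-! ### even exponents -/

theorem permW_append (a b : List (Letter m)) : permW (a ++ b) = permW a * permW b := by
  simp [permW]

theorem permW_rep (x : Letter m) (n : ℕ) : 
    permW (List.replicate n [x]).flatten = 
      (Equiv.swap (⟨x.2, by omega⟩ : Fin m) ⟨x.2 + 1, by omega⟩) ^ n := by
  induction n with
  | zero => simp [permW]
  | succ n ih =>
    rw [List.replicate_succ, List.flatten_cons, permW_append, ih, pow_succ']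
    congr 1

theorem swap_pow_even {a b : Fin m} (n : ℕ) (h : Even n) : (Equiv.swap a b) ^ n = 1 := by
  obtain ⟨k, rfl⟩ := h
  rw [← two_mul, pow_mul, pow_two, Equiv.swap_mul_self, one_pow]

theorem permW_pow (i : Fin (m - 1)) (n : ℤ) (h : Even n) : 
    permW (powW [((true, i) : Letter m)] n) = 1 := by
  rcases n with n | n
  · rw [powW, permW_rep]
    exact swap_pow_even _ (by simpa using h)
  · rw [powW]
    have h1 : invW [((true, i) : Letter m)] = [(false, i)] := rfl
    rw [h1, permW_rep]
    apply swap_pow_even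
    rw [Int.negSucc_eq, even_neg] at h
    exact_mod_cast h

theorem permW_flatten (L : List (List (Letter m))) (h : ∀ l ∈ L, permW l = 1) : 
    permW L.flatten = 1 := by
  induction L with
  | nil => simp [permW]
  | cons a L ih =>
    rw [List.flatten_cons, permW_append, h a (by simp), ih (fun l hl => h l (by simp [hl])), one_mul]

theorem permW_tw {k : ℕ} (i : Fin k → Fin (m - 1)) (x : Fin k → ℤ) (h : ∀ j, Even (x j)) : 
    permW (tw i x) = 1 := by
  unfold tw
  apply permW_flatten
  intro l hl
  rw [List.mem_ofFn'] at hl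
  obtain ⟨j, rfl⟩ := hl
  exact permW_pow _ _ (h j)

/-! ### uniform distributions on finite sets -/

open Classical in
/-- the uniform distribution on a nonempty finite set of integers -/
noncomputable def unif (A : Finset ℤ) (h : A.Nonempty) : Law where
  A := A
  p n := if n ∈ A then 1 / (A.card : ℝ) else 0
  nn n := by split_ifs <;> positivity
  sum := by
    rw [Finset.sum_congr rfl (fun n hn => if_pos hn), Finset.sum_const, nsmul_eq_mul]
    have : (A.card : ℝ) ≠ 0 := by
      have := h.card_pos
      positivity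
    field_simp

open Classical in
theorem prob_unif {k : ℕ} (A : Fin k → Finset ℤ) (h : ∀ j, (A j).Nonempty) (E : (Fin k → ℤ) → Prop) : 
    prob (fun j => unif (A j) (h j)) E * ∏ j, ((A j).card : ℝ) = 
      (((Fintype.piFinset A).filter E).card : ℝ) := by
  have h1 : prob (fun j => unif (A j) (h j)) E = 
      ∑ x ∈ (Fintype.piFinset A).filter E, ∏ j, (1 / ((A j).card : ℝ)) := by
    unfold prob
    refine Finset.sum_congr rfl fun x hx => ?_
    refine Finset.prod_congr rfl fun j _ => ?_
    have h2 := Fintype.mem_piFinset.1 (Finset.mem_filter.1 hx).1 j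
    exact if_pos h2
  rw [h1, Finset.sum_const, nsmul_eq_mul, mul_assoc, ← Finset.prod_mul_distrib]
  rw [Finset.prod_eq_one, mul_one]
  intro j _
  have : ((A j).card : ℝ) ≠ 0 := by
    have := (h j).card_pos
    positivity
  field_simp

open Classical in
/-- the number of `j` such that `i_j` and `i_{j+1}` are neighbouring places -/
def nb {k : ℕ} (i : Fin k → Fin (m - 1)) : ℕ := 
  (Finset.univ.filter (fun j : Fin k => ∃ h : (j : ℕ) + 1 < k, 
    (i j : ℕ) + 1 = i ⟨j + 1, h⟩ ∨ (i ⟨j + 1, h⟩ : ℕ) + 1 = i j)).card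

theorem turns_unif {k : ℕ} (i : Fin k → Fin (m - 1)) (A : Fin k → Finset ℤ) (h : ∀ j, (A j).Nonempty) 
    (M : ℕ) (hM : 0 < M) (hA : ∀ j, M ≤ (A j).card) : 
    nb i ≤ turns i (fun j => unif (A j) (h j)) (1 / M) := by
  classical
  have hs : ∀ j, (unif (A j) (h j)).Spread (1 / M) := by
    intro j n hn
    have h2 : (unif (A j) (h j)).p n = 1 / ((A j).card : ℝ) := if_pos hn
    rw [h2]
    have h3 : (0:ℝ) < M := by exact_mod_cast hM
    have h4 : (M:ℝ) ≤ (A j).card := by exact_mod_cast hA j
    exact one_div_le_one_div_of_le h3 h4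
  unfold nb turns
  refine Finset.card_le_card fun j hj => ?_
  rw [Finset.mem_filter] at hj ⊢
  obtain ⟨h1, h2, h3⟩ := hj
  exact ⟨h1, h2, h3, hs _, hs _⟩

end Pool.Agent.X130.TR
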