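import Pool.Agent.X130.TR.C
import Mathlib.RingTheory.Binomial

/-!
# Vassiliev invariants with values in the integers modulo `N`
-/

set_option autoImplicit false

namespace Pool.Agent.X130.TR

open Finset LaurentPolynomial Pool.Agent.H891R2.Jones Pool.Agent.W639.RB Pool.Agent.Y463.SK
  Pool.Agent.Y463.UT Pool.Agent.H832R3.VJ
open Pool.Agent.W705.JR (Within)
open Pool.Agent.Y463.MP (within_fPoly)

/-- the coefficient of `h ^ j` of `F (1 + h)` -/
noncomputable def bmom (j : ℕ) (F : ℤ[T;T⁻¹]) : ℤ := F.coeff.sum fun k c => c * Ring.choose k j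

theorem bmom_add (j : ℕ) (F G : ℤ[T;T⁻¹]) : bmom j (F + G) = bmom j F + bmom j G := by
  unfold bmom
  rw [AddMonoidAlgebra.coeff_add, Finsupp.sum_add_index']
  · intro k; simp
  · intro k a b; ring

/-- `bmom` as a homomorphism -/
noncomputable def bmH (j : ℕ) : ℤ[T;T⁻¹] →+ ℤ where
  toFun := bmom j
  map_zero' := by
    unfold bmom
    rw [AddMonoidAlgebra.coeff_zero, Finsupp.sum_zero_index]
  map_add' := bmom_add j

theorem bmH_apply (j : ℕ) (F : ℤ[T;T⁻¹]) : bmH j F = bmom j F := rfl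

theorem bmom_sub (j : ℕ) (F G : ℤ[T;T⁻¹]) : bmom j (F - G) = bmom j F - bmom j G := by
  rw [← bmH_apply, map_sub, bmH_apply, bmH_apply]

theorem bmom_term (j : ℕ) (n : ℤ) (a : ℤ) : bmom j (C a * T n) = a * Ring.choose n j := by
  unfold bmom
  rw [← single_eq_C_mul_T, AddMonoidAlgebra.coeff_single, Finsupp.sum_single_index]
  simp

theorem bmom_T1_zero (F : ℤ[T;T⁻¹]) : bmom 0 (T 1 * F) = bmom 0 F := by
  induction F using LaurentPolynomial.induction_on' with
  | add p q hp hq => rw [mul_add, bmom_add, hp, hq, bmom_add]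
  | C_mul_T n a =>
    have h1 : T 1 * (C a * T n) = C a * T (n + 1) := by
      rw [T_add]; ring
    rw [h1, bmom_term, bmom_term, Ring.choose_zero_right, Ring.choose_zero_right]

theorem bmom_T1_succ (j : ℕ) (F : ℤ[T;T⁻¹]) : bmom (j + 1) (T 1 * F) = bmom j F + bmom (j + 1) F := by
  induction F using LaurentPolynomial.induction_on' with
  | add p q hp hq => rw [mul_add, bmom_add, hp, hq, bmom_add, bmom_add]; ring
  | C_mul_T n a =>
    have h1 : T 1 * (C a * T n) = C a * T (n + 1) := by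
      rw [T_add]; ring
    rw [h1, bmom_term, bmom_term, bmom_term, Ring.choose_succ_succ]
    ring

theorem bmom_pow_mul (m : ℕ) (G : ℤ[T;T⁻¹]) : ∀ j < m, bmom j ((T 1 - 1 : ℤ[T;T⁻¹]) ^ m * G) = 0 := by
  induction m with
  | zero => intro j hj; exact absurd hj (Nat.not_lt_zero _)
  | succ m ih =>
    intro j hj
    have h1 : (T 1 - 1 : ℤ[T;T⁻¹]) ^ (m + 1) * G =
        T 1 * ((T 1 - 1 : ℤ[T;T⁻¹]) ^ m * G) - (T 1 - 1 : ℤ[T;T⁻¹]) ^ m * G := by ring
    rw [h1, bmom_sub]
    rcases j with _ | j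
    · rw [bmom_T1_zero, sub_self]
    · rw [bmom_T1_succ, ih j (by omega), zero_add, sub_self]

theorem bmom_of_dvd (n : ℕ) (F : ℤ[T;T⁻¹]) (h : (T 1 - 1 : ℤ[T;T⁻¹]) ^ (n + 1) ∣ F) : bmom n F = 0 := by
  obtain ⟨G, rfl⟩ := h
  exact bmom_pow_mul (n + 1) G n (Nat.lt_succ_self n)

theorem sing_bmom (n : ℕ) {P : Type} (hP : Finite P) (arcs : List (P × P))
    (l : List (Crossing P)) : ∀ cr : List (Crossing P),
    sing (fun X => bmom n X.D.fPoly) hP arcs cr l = bmom n (singF arcs cr l) := by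
  induction l with
  | nil => intro cr; rfl
  | cons x l ih =>
    intro cr
    simp only [sing, singF, bmom_sub, ih]

theorem isVassiliev_bmom (n : ℕ) : IsVassiliev n (fun X => bmom n X.D.fPoly) := by
  refine ⟨fun X Y hX hY h => ?_, fun P hP arcs cr l hl _ => ?_⟩
  · show bmom n X.D.fPoly = bmom n Y.D.fPoly
    rw [fPoly_move X Y hX hY h]
  · rw [sing_bmom]
    apply bmom_of_dvd
    have := singF_dvd arcs cr l
    rwa [hl] at this

/-! ### the binomial moments determine a Laurent polynomial modulo `N` -/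

theorem down (N : ℤ) (n : ℕ) (p : ℕ → ℤ) 
    (h : ∀ b ≤ n, N ∣ ∑ i ∈ range (n + 1), p i * (i.choose b : ℤ)) : ∀ r ≤ n, N ∣ p (n - r) := by
  intro r
  induction r using Nat.strong_induction_on with
  | _ r ih =>
    intro hr
    have h1 := h (n - r) (by omega)
    rw [← Finset.add_sum_erase _ _ (Finset.mem_range.2 (show n - r < n + 1 by omega)), 
      Nat.choose_self, Nat.cast_one, mul_one] at h1
    refine (dvd_add_left (Finset.dvd_sum fun i hi => ?_)).1 h1
    rw [Finset.mem_erase, Finset.mem_range] at hi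
    rcases Nat.lt_or_ge i (n - r) with h2 | h2
    · rw [Nat.choose_eq_zero_of_lt h2]
      simp
    · have h3 := ih (n - i) (by omega) (by omega)
      have h4 : n - (n - i) = i := by omega
      rw [h4] at h3
      exact Dvd.dvd.mul_right h3 _

theorem up (N : ℤ) (n : ℕ) (p : ℕ → ℤ) (s : ℤ) 
    (h : ∀ j ≤ n, N ∣ ∑ i ∈ range (n + 1), p i * Ring.choose ((i : ℤ) + s) j) : 
    ∀ b ≤ n, N ∣ ∑ i ∈ range (n + 1), p i * (i.choose b : ℤ) := by
  intro b
  induction b using Nat.strong_induction_on with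
  | _ b ih =>
    intro hb
    have h1 := h b hb
    have h2 : ∑ i ∈ range (n + 1), p i * Ring.choose ((i : ℤ) + s) b = 
        ∑ q ∈ antidiagonal b, Ring.choose s q.2 * ∑ i ∈ range (n + 1), p i * (i.choose q.1 : ℤ) := by
      simp_rw [Finset.mul_sum]
      rw [Finset.sum_comm]
      refine Finset.sum_congr rfl fun i _ => ?_
      rw [Ring.add_choose_eq b (Commute.all (i : ℤ) s), Finset.mul_sum]
      refine Finset.sum_congr rfl fun q _ => ?_
      have h3 : Ring.choose (i : ℤ) q.1 = (i.choose q.1 : ℤ) := Ring.choose_natCast i q.1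
      rw [h3]
      ring
    have hmem : ((b, 0) : ℕ × ℕ) ∈ antidiagonal b := by simp
    rw [h2, ← Finset.add_sum_erase _ _ hmem, Ring.choose_zero_right, one_mul] at h1
    refine (dvd_add_left (Finset.dvd_sum fun q hq => ?_)).1 h1
    rw [Finset.mem_erase, Finset.HasAntidiagonal.mem_antidiagonal] at hq
    have h4 : q.1 < b := by
      rcases Nat.lt_or_ge q.1 b with h5 | h5
      · exact h5
      · exact absurd (Prod.ext (show q.1 = b by omega) (show q.2 = 0 by omega)) hq.1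
    exact Dvd.dvd.mul_left (ih q.1 h4 (by omega)) _

theorem sum_window (K : ℕ) (F : ℤ[T;T⁻¹]) (hF : Within K F) (g : ℤ → ℤ) : 
    (F.coeff.sum fun k c => c * g k) = ∑ i ∈ range (2 * K + 1), F.coeff ((i : ℤ) + (-K)) * g ((i : ℤ) + (-K)) := by
  have h1 : F.coeff.support ⊆ (range (2 * K + 1)).image (fun i : ℕ => ((i : ℤ) + (-K))) := by
    intro k hk
    rw [Finsupp.mem_support_iff] at hk
    have := abs_le.1 (hF k hk)
    rw [Finset.mem_image]
    refine ⟨(k + K).toNat, ?_, ?_⟩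
    · rw [Finset.mem_range]; omega
    · omega
  rw [Finsupp.sum_of_support_subset _ h1 _ (by simp), Finset.sum_image]
  intro a _ b _ hab
  have hab' : (a : ℤ) + (-K) = b + (-K) := hab
  omega

theorem dvd_of_bmom (N : ℤ) (K : ℕ) (F : ℤ[T;T⁻¹]) (hF : Within K F) (h : ∀ j ≤ 2 * K, N ∣ bmom j F) : 
    ∀ k, N ∣ F.coeff k := by
  intro k
  by_cases hk : F.coeff k = 0
  · rw [hk]; exact dvd_zero _
  have h1 := abs_le.1 (hF k hk)
  have h2 : ∀ j ≤ 2 * K, N ∣ ∑ i ∈ range (2 * K + 1), 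
      F.coeff ((i : ℤ) + (-K)) * Ring.choose ((i : ℤ) + (-K)) j := by
    intro j hj
    have := h j hj
    unfold bmom at this
    rwa [sum_window K F hF (fun k => Ring.choose k j)] at this
  have h3 := down N (2 * K) (fun i => F.coeff ((i : ℤ) + (-K))) 
    (up N (2 * K) (fun i => F.coeff ((i : ℤ) + (-K))) (-K) h2) (2 * K - (k + K).toNat) (by omega)
  have h4 : (((2 * K - (2 * K - (k + K).toNat) : ℕ)) : ℤ) + (-K) = k := by omega
  rwa [h4] at h3

/-- `X` and `Y` are separated by the reduction modulo `N` of an integer valued Vassiliev invariant of order at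
most `d`, a Vassiliev invariant with values in `ℤ/N`. -/
def SeparatedMod (N d : ℕ) (X Y : Dia) : Prop := ∃ n ≤ d, ∃ v, IsVassiliev n v ∧ ¬ (N : ℤ) ∣ v X - v Y

theorem dvd_of_coeff (N : ℕ) (F : ℤ[T;T⁻¹]) (h : ∀ k, (N : ℤ) ∣ F.coeff k) : (N : ℤ[T;T⁻¹]) ∣ F := by
  refine ⟨AddMonoidAlgebra.ofCoeff (F.coeff.mapRange (fun a => a / N) (by simp)), ?_⟩
  rw [← nsmul_eq_mul]
  ext k
  rw [AddMonoidAlgebra.coeff_smul, Finsupp.smul_apply, AddMonoidAlgebra.coeff_ofCoeff, 
    Finsupp.mapRange_apply, nsmul_eq_mul]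
  exact (Int.mul_ediv_cancel' (h k)).symm

theorem within_sub {K : ℕ} {F G : ℤ[T;T⁻¹]} (hF : Within K F) (hG : Within K G) : Within K (F - G) := by
  rw [sub_eq_add_neg]
  exact hF.add hG.neg

/-- diagrams whose normalised brackets are different modulo `N` are separated by Vassiliev invariants with
values in `ℤ/N` -/
theorem sepMod (N : ℕ) (X Y : Dia) (d : ℕ) 
    (hX : 8 * X.D.crossings.length + 4 * Nat.card X.P ≤ d) 
    (hY : 8 * Y.D.crossings.length + 4 * Nat.card Y.P ≤ d) 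
    (h : ¬ (N : ℤ[T;T⁻¹]) ∣ X.D.fPoly - Y.D.fPoly) : SeparatedMod N d X Y := by
  set K := max (4 * X.D.crossings.length + 2 * Nat.card X.P) 
    (4 * Y.D.crossings.length + 2 * Nat.card Y.P) with hK
  have h1 : Within K (X.D.fPoly - Y.D.fPoly) := 
    within_sub ((@within_fPoly X.P X.fin X.D).mono (le_max_left _ _)) 
      ((@within_fPoly Y.P Y.fin Y.D).mono (le_max_right _ _))
  have h2 : 2 * K ≤ d := by omega
  by_contra hcon
  apply h
  apply dvd_of_coeff
  apply dvd_of_bmom (N : ℤ) K _ h1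
  intro j hj
  by_contra hne
  apply hcon
  refine ⟨j, by omega, fun X => bmom j X.D.fPoly, isVassiliev_bmom j, ?_⟩
  rwa [← bmom_sub]

theorem sepMod_mono {N d d' : ℕ} (h : d ≤ d') {X Y : Dia} (hs : SeparatedMod N d X Y) : 
    SeparatedMod N d' X Y := by
  obtain ⟨n, hn, v, hv⟩ := hs
  exact ⟨n, hn.trans h, v, hv⟩

end Pool.Agent.X130.TR
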